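import Mathlib
import Pool.Agent.Helper93.TP.Final

/-!
MP_7123bd_ag: the generic Hilbert function of triple points in degree `4`, for all numbers of
points outside a window of size `O(n ^ (7 / 4))` around the critical number
`(1 / 2 - 1 / sqrt 6) n ^ 2`.
-/

namespace Pool.Agent.Results.MP_7123bd_ag.QuarticAsymptotic

open Pool.Agent.Helper93.TP

theorem result : ∃ C : ℝ, 0 < C ∧ ∀ n r : ℕ, 1 ≤ n →
    ((r : ℝ) ≤ (1 / 2 - 1 / Real.sqrt 6) * (n : ℝ) ^ 2 - C * (n : ℝ) ^ (7 / 4 : ℝ) →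
      GenHilb n r 3 4 (r * (n + 2).choose 2 - r.choose 2)) ∧
    ((1 / 2 - 1 / Real.sqrt 6) * (n : ℝ) ^ 2 + C * (n : ℝ) ^ (3 / 2 : ℝ) ≤ (r : ℝ) →
      GenHilb n r 3 4 ((n + 4).choose 4)) :=
  quartic_main

end Pool.Agent.Results.MP_7123bd_ag.QuarticAsymptotic
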